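import Pool.Agent.Lib.SH17.Grow
import Pool.Agent.Lib.CT17.All

namespace Pool.Agent.SH17

open Module Finset Pool.Agent.CT17 Filter

open Pool.Agent.Lib.MP_5f4cd2_co in
theorem explicit (F : Type) [Field F] [Fintype F] (r l s n k : ℕ) (hr : 1 ≤ r) (hl : 1 ≤ l)
    (hk : k ≤ 2 ^ s * (r * l) ^ 2) (hm : r * l ^ 2 * (r + s) ≤ n - k) (ε : ℝ)
    (hε : ε = 8 * r * s * (r * l : ℝ) ^ (r + 1) * (Fintype.card F : ℝ) ^ r /
      (Fintype.card F : ℝ) ^ l) (h1 : ε ≤ 1) :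
    (T F n k r : ℝ) ≤ (1 + ε) * (Fintype.card F : ℝ) ^ (r * (n - k)) := by
  have hD : 1 ≤ r * l := Nat.mul_pos hr hl
  have hD' : (1 : ℝ) ≤ (r * l : ℕ) := by exact_mod_cast hD
  have hq : (1 : ℝ) ≤ Fintype.card F := by exact_mod_cast Fintype.card_pos
  let η : ℝ := 8 * r * ((r * l : ℕ) * Fintype.card F : ℝ) ^ r / (Fintype.card F : ℝ) ^ l
  have hη0 : 0 ≤ η := by positivity
  have hs : ((s * (r * l) : ℕ) : ℝ) * η = ε := by
    rw [hε]
    simp only [η]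
    push_cast
    ring
  have hη : 2 * r * (r * l + 1 : ℝ) + 4 * r * ((r * l : ℕ) * Fintype.card F : ℝ) ^ r
      ≤ η * (Fintype.card F : ℝ) ^ l := by
    have a7 : (r * l + 1 : ℝ) ≤ 2 * ((r * l : ℕ) * Fintype.card F : ℝ) ^ r := by
      have b1 : ((r * l : ℕ) : ℝ) ≤ (r * l : ℕ) * Fintype.card F := by nlinarith
      have b2 : ((r * l : ℕ) * Fintype.card F : ℝ) ≤ ((r * l : ℕ) * Fintype.card F : ℝ) ^ r :=
        le_self_pow₀ (by linarith) (by omega)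
      have b3 : ((r * l : ℕ) : ℝ) = r * l := by push_cast; rfl
      linarith
    have := mul_le_mul_of_nonneg_left a7 (show (0 : ℝ) ≤ 2 * r by positivity)
    simp only [η]
    rw [div_mul_cancel₀ _ (by positivity)]
    linarith
  have hG := G_iter (F := F) hr hl hη0 hη s (by rw [hs]; exact h1)
  rw [hs] at hG
  have hK : K F r k (n - k) ((1 + ε) * ((Fintype.card F : ℝ) ^ (n - k)) ^ r) :=
    Cov.left (by simpa using hk.trans (le_of_eq (by ring)))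
      (hG r le_rfl _ (le_trans (le_of_eq (by ring)) hm))
  obtain ⟨M, hM, hc⟩ := covers_of_K hK
  have h2 : T F n k r ≤ M.card := Nat.sInf_le ⟨M, hM, rfl⟩
  rw [mul_comm r, pow_mul]
  exact le_trans (by exact_mod_cast h2) hc

lemma ev_pow (c : ℝ) (hc : 0 < c) (a : ℕ) : ∃ h : ℕ, ∀ x : ℕ, h ≤ x → c * (x : ℝ) ^ a ≤ 2 ^ x := by
  have h1 := tendsto_pow_const_div_const_pow_of_one_lt a (r := (2 : ℝ)) one_lt_two
  obtain ⟨h, hh⟩ := eventually_atTop.mp (h1.eventually (gt_mem_nhds (inv_pos.mpr hc)))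
  refine ⟨h, fun x hx => ?_⟩
  have h2 := (hh x hx).le
  rw [div_le_iff₀ (by positivity), ← div_eq_inv_mul, le_div_iff₀ hc] at h2
  linarith

open Pool.Agent.Lib.MP_5f4cd2_co in
theorem sharp (r : ℕ) (hr : 1 ≤ r) : ∃ C : ℕ, ∀ (F : Type) [Field F] [Fintype F] (t n k : ℕ),
    1 ≤ t → k ≤ 2 ^ 2 ^ t → C * t ^ 2 * 2 ^ t ≤ n - k →
    (T F n k r : ℝ) ≤ (1 + 1 / 2 ^ t) * (Fintype.card F : ℝ) ^ (r * (n - k)) := by
  obtain ⟨h, hh⟩ := ev_pow (8 * r * 2 ^ r * (2 * r) ^ (r + 1)) (by positivity) (r + 1)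
  refine ⟨2 * r ^ 2 * (4 + 2 * (h + r)) ^ 2, fun F _ _ t n k ht hk hm => ?_⟩
  obtain ⟨x, hx⟩ : ∃ x, x = 2 * t + (h + r) := ⟨_, rfl⟩
  obtain ⟨l, hl⟩ : ∃ l, l = 2 * x := ⟨_, rfl⟩
  have hl1 : 1 ≤ l := by omega
  have hD : 1 ≤ r * l := Nat.mul_pos hr hl1
  have hD' : (1 : ℝ) ≤ (r * l : ℕ) := by exact_mod_cast hD
  have hq : (2 : ℝ) ≤ Fintype.card F := by exact_mod_cast Fintype.one_lt_card
  let η : ℝ := 1 / (2 ^ t * 2 ^ t * (r * l : ℕ))
  have hη0 : 0 ≤ η := by positivity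
  have hs : ((2 ^ t * (r * l) : ℕ) : ℝ) * η = 1 / 2 ^ t := by
    simp only [η]
    rw [Nat.cast_mul, Nat.cast_pow, Nat.cast_ofNat]
    field_simp
  have hη : 2 * r * (r * l + 1 : ℝ) + 4 * r * ((r * l : ℕ) * Fintype.card F : ℝ) ^ r
      ≤ η * (Fintype.card F : ℝ) ^ l := by
    obtain ⟨e, he⟩ : ∃ e, l = r + e := ⟨l - r, by omega⟩
    have a1 : (8 * r * 2 ^ r * ((r * l : ℕ) : ℝ) ^ (r + 1)) ≤ 2 ^ x := by
      refine le_trans (le_of_eq ?_) (hh x (by omega))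
      rw [hl]
      push_cast
      ring
    have a2 : (2 : ℝ) ^ t * 2 ^ t ≤ 2 ^ x := by
      rw [← pow_add]
      exact pow_le_pow_right₀ one_le_two (by omega)
    have a3 : (2 : ℝ) ^ x * 2 ^ x = 2 ^ r * 2 ^ e := by
      rw [← pow_add, ← pow_add, ← he, hl, two_mul]
    have a4 : (2 : ℝ) ^ e ≤ (Fintype.card F : ℝ) ^ e := pow_le_pow_left₀ zero_le_two hq e
    have a5 : (8 * r * ((r * l : ℕ) : ℝ) ^ (r + 1)) * (2 ^ t * 2 ^ t)
        ≤ (Fintype.card F : ℝ) ^ e := by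
      refine le_trans ?_ a4
      have a6 := mul_le_mul a1 a2 (by positivity) (by positivity)
      rw [a3] at a6
      refine le_of_mul_le_mul_left ?_ (show (0 : ℝ) < 2 ^ r by positivity)
      exact le_trans (le_of_eq (by ring)) a6
    have a7 : (r * l + 1 : ℝ) ≤ 2 * ((r * l : ℕ) * Fintype.card F : ℝ) ^ r := by
      have b1 : ((r * l : ℕ) : ℝ) ≤ (r * l : ℕ) * Fintype.card F := by nlinarith
      have b2 : ((r * l : ℕ) * Fintype.card F : ℝ) ≤ ((r * l : ℕ) * Fintype.card F : ℝ) ^ r :=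
        le_self_pow₀ (by linarith) (by omega)
      have b3 : ((r * l : ℕ) : ℝ) = r * l := by push_cast; rfl
      linarith
    have a8 : 2 * r * (r * l + 1 : ℝ) + 4 * r * ((r * l : ℕ) * Fintype.card F : ℝ) ^ r
        ≤ 8 * r * ((r * l : ℕ) * Fintype.card F : ℝ) ^ r := by
      have := mul_le_mul_of_nonneg_left a7 (show (0 : ℝ) ≤ 2 * r by positivity)
      linarith
    refine a8.trans ?_
    have a9 : (Fintype.card F : ℝ) ^ l = (Fintype.card F : ℝ) ^ r * (Fintype.card F : ℝ) ^ e := by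
      rw [← pow_add, ← he]
    simp only [η]
    rw [a9, one_div_mul_eq_div, le_div_iff₀ (by positivity)]
    have := mul_le_mul_of_nonneg_left a5 (show (0 : ℝ) ≤ (Fintype.card F : ℝ) ^ r by positivity)
    exact le_trans (le_of_eq (by ring)) this
  have h1 : (1 : ℝ) / 2 ^ t ≤ 1 := by
    rw [div_le_one (by positivity)]
    exact one_le_pow₀ one_le_two
  have hG := G_iter (F := F) hr hl1 hη0 hη (2 ^ t) (by rw [hs]; exact h1)
  rw [hs] at hG
  have hm' : r * l * (r * l) + 2 ^ t * (r * l) * l ≤ n - k := by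
    refine le_trans ?_ hm
    have b1 : l ≤ (4 + 2 * (h + r)) * t := by
      rw [hl, hx]
      nlinarith [Nat.mul_le_mul_left (h + r) ht]
    have b2 : 1 ≤ 2 ^ t := Nat.one_le_two_pow
    calc r * l * (r * l) + 2 ^ t * (r * l) * l = r ^ 2 * l ^ 2 * 1 + (r * 1) * l ^ 2 * 2 ^ t := by
          ring
      _ ≤ r ^ 2 * l ^ 2 * 2 ^ t + (r * r) * l ^ 2 * 2 ^ t := by gcongr
      _ = 2 * r ^ 2 * l ^ 2 * 2 ^ t := by ring
      _ ≤ 2 * r ^ 2 * ((4 + 2 * (h + r)) * t) ^ 2 * 2 ^ t := by gcongr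
      _ = _ := by ring
  have hk' : k ≤ r * l * (2 ^ 2 ^ t * (r * l)) :=
    hk.trans ((Nat.le_mul_of_pos_right _ hD).trans (Nat.le_mul_of_pos_left _ hD))
  have hK : K F r k (n - k) ((1 + 1 / 2 ^ t) * ((Fintype.card F : ℝ) ^ (n - k)) ^ r) :=
    Cov.left (by simpa using hk') (hG r le_rfl _ hm')
  obtain ⟨M, hM, hc⟩ := covers_of_K hK
  have h2 : T F n k r ≤ M.card := Nat.sInf_le ⟨M, hM, rfl⟩
  rw [mul_comm r, pow_mul]
  exact le_trans (by exact_mod_cast h2) hc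

end Pool.Agent.SH17
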