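import Pool.Agent.Lib.CT17.Num

namespace Pool.Agent.SH17

open Module Finset Pool.Agent.CT17 Polynomial

variable {F : Type} [Field F] [Fintype F]

/-- the linearised polynomial with coefficients `c`. -/
noncomputable def lin (F : Type) [Field F] [Fintype F] {L : Type} [Field L] [Algebra F L]
    (j : ℕ) (c : ℕ → L) : L →ₗ[F] L :=
  ∑ i ∈ range j, c i • ((FiniteField.frobeniusAlgHom F L) ^ i).toLinearMap

lemma lin_apply {L : Type} [Field L] [Algebra F L] (j : ℕ) (c : ℕ → L) (y : L) :
    lin F j c y = ∑ i ∈ range j, c i * y ^ (Fintype.card F ^ i) := by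
  simp only [lin, LinearMap.sum_apply, LinearMap.smul_apply, AlgHom.toLinearMap_apply,
    AlgHom.coe_pow, FiniteField.coe_frobeniusAlgHom, pow_iterate, smul_eq_mul]

lemma lin_inj {L : Type} [Field L] [Algebra F L] [Fintype L] (P : Submodule F L) (c : ℕ → L)
    (h : ∀ p ∈ P, lin F (finrank F P) c p = 0) : ∀ i, i < finrank F P → c i = 0 := by
  classical
  intro i hi
  have hq : 1 < Fintype.card F := Fintype.one_lt_card
  let f : L[X] := ∑ i ∈ range (finrank F P), monomial (Fintype.card F ^ i) (c i)
  have hf : f = 0 := by
    refine eq_zero_of_natDegree_lt_card_of_eval_eq_zero f (f := fun p : P => (p : L))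
      Subtype.val_injective (fun p => ?_) ?_
    · have := h p.1 p.2
      rw [lin_apply] at this
      simpa only [f, eval_finsetSum, eval_monomial] using this
    · rw [← Nat.card_eq_fintype_card, Module.natCard_eq_pow_finrank (K := F),
        Nat.card_eq_fintype_card]
      refine lt_of_le_of_lt (natDegree_sum_le_of_forall_le _ _
        (n := Fintype.card F ^ (finrank F P - 1)) fun a ha => ?_) ?_
      · refine (natDegree_monomial_le _).trans (Nat.pow_le_pow_right hq.le ?_)
        have := mem_range.mp ha
        omega
      · exact Nat.pow_lt_pow_right hq (by omega)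
  have h2 := congrArg (fun g : L[X] => g.coeff (Fintype.card F ^ i)) hf
  simp only [f, finsetSum_coeff, coeff_monomial, coeff_zero] at h2
  rw [sum_eq_single i] at h2
  · simpa using h2
  · intro b _ hb
    rw [if_neg fun e => hb (Nat.pow_right_injective hq e)]
  · intro hn
    exact absurd (mem_range.mpr hi) hn

lemma gab (L : Type) [Field L] [Algebra F L] [Fintype L] (j : ℕ) :
    Cov F j L L ((Fintype.card L : ℝ) ^ j) := by
  classical
  let ex : (d : ℕ) → (Fin d → L) → ℕ → L := fun d c i => if h : i < d then c ⟨i, h⟩ else 0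
  refine ⟨univ.image fun c : Fin j → L => lin F j (ex j c), ?_, fun P hP φ => ?_⟩
  · refine le_trans (Nat.cast_le.mpr card_image_le) ?_
    simp
  · let ρ : (Fin (finrank F P) → L) → (P →ₗ[F] L) := fun c =>
      (lin F (finrank F P) (ex _ c)).domRestrict P
    have hinj : Function.Injective ρ := by
      intro c c' e
      have h0 := lin_inj P (fun i => ex _ c i - ex _ c' i) fun p hp => by
        have h1 : lin F (finrank F P) (ex _ c) p = lin F (finrank F P) (ex _ c') p :=
          LinearMap.congr_fun e ⟨p, hp⟩
        rw [lin_apply] at h1 ⊢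
        rw [lin_apply] at h1
        simp only [sub_mul, sum_sub_distrib, h1, sub_self]
      funext i
      have := h0 i.1 i.2
      simp only [ex, i.2, dif_pos] at this
      exact sub_eq_zero.mp this
    have : Finite (P →ₗ[F] L) := DFunLike.finite _
    have hb : Function.Bijective ρ := by
      refine (Nat.bijective_iff_injective_and_card ρ).mpr ⟨hinj, ?_⟩
      rw [Nat.card_fun, Module.natCard_eq_pow_finrank (K := F) (V := P →ₗ[F] L),
        Module.finrank_linearMap, Module.natCard_eq_pow_finrank (K := F) (V := L), ← pow_mul]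
      simp [mul_comm]
    obtain ⟨c, hc⟩ := hb.2 (φ.domRestrict P)
    refine ⟨_, mem_image.mpr ⟨fun i => ex _ c i.1, mem_univ _, rfl⟩, fun p hp => ?_⟩
    have h1 : lin F (finrank F P) (ex _ c) p = φ p := LinearMap.congr_fun hc ⟨p, hp⟩
    rw [← h1, lin_apply, lin_apply]
    symm
    refine sum_subset_zero_on_sdiff (range_subset_range.mpr hP) (fun i hi => ?_) fun i hi => ?_
    · have h2 := mem_sdiff.mp hi
      have h3 : ¬ i < finrank F P := fun h => h2.2 (mem_range.mpr h)
      simp only [ex, mem_range.mp h2.1, dif_pos, h3, dif_neg, not_false_eq_true, zero_mul]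
    · have h3 : i < j := lt_of_lt_of_le (mem_range.mp hi) hP
      simp only [ex, h3, dif_pos]

lemma K_gab {j k m : ℕ} (hm : 1 ≤ m) (hk : k ≤ m) :
    K F j k m (((Fintype.card F : ℝ) ^ m) ^ j) := by
  obtain ⟨p, hp⟩ := CharP.exists F
  have : Fact p.Prime := ⟨CharP.char_is_prime F p⟩
  have : NeZero m := ⟨by omega⟩
  let E := FiniteField.Extension F p m
  let _ : Fintype E := Fintype.ofFinite E
  have hE : Fintype.card E = Fintype.card F ^ m := by
    rw [← Nat.card_eq_fintype_card, ← Nat.card_eq_fintype_card]
    exact FiniteField.natCard_extension F p m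
  have hfr : finrank F E = m := FiniteField.finrank_extension F p m
  have h := gab (F := F) E j
  rw [hE] at h
  push_cast at h
  exact Cov.left (by simpa [hfr] using hk) (Cov.right (by simp [hfr]) h)

end Pool.Agent.SH17
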