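import Pool.Agent.Lib.SH17.Step
import Pool.Agent.Lib.SH17.Gab

namespace Pool.Agent.SH17

open Module Finset Pool.Agent.CT17

variable {F : Type} [Field F] [Fintype F]

/-- one step in coordinates, for one rank. -/
lemma K_step {j l D y m : ℕ} {N Φ : ℝ} (hl : 1 ≤ l) (hD : (j + 1) * l ≤ D) (hm : D ≤ m)
    (h1 : K F (j + 1) (D * y) m N)
    (h3 : ∀ d, d < j + 1 → ∃ a a', K F (d + 1) (D * y) m a ∧
      K F (j + 1 - (d + 1)) (D * y) (m + l) a' ∧ a * a' ≤ Φ) :
    K F (j + 1) ((D + 1) * y) (m + l) (((Fintype.card F : ℝ) ^ l) ^ (j + 1) * N +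
      (j + 1) * ((Fintype.card F : ℝ) ^ l) ^ j * ((D + 1 : ℕ) * N) +
      ((D : ℝ) * Fintype.card F) ^ (j + 1) * ((j + 1 : ℕ) * Φ)) := by
  classical
  obtain ⟨p, hp⟩ := CharP.exists F
  have : Fact p.Prime := ⟨CharP.char_is_prime F p⟩
  have : NeZero l := ⟨by omega⟩
  let E := FiniteField.Extension F p l
  let _ : Fintype E := Fintype.ofFinite E
  have hE : Fintype.card E = Fintype.card F ^ l := by
    rw [← Nat.card_eq_fintype_card, ← Nat.card_eq_fintype_card]
    exact FiniteField.natCard_extension F p l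
  have hfr : finrank F E = l := FiniteField.finrank_extension F p l
  have hjD : j + 1 ≤ D := le_trans (Nat.le_mul_of_pos_right _ hl) hD
  obtain ⟨ι, σ, hA⟩ := labels (F := F) E (Fin (m - (j + 1) * l) → F) j
  let b : Basis (Fin l) F E := Module.finBasisOfFinrankEq F E hfr
  let A := (Fin (j + 1) × Fin l) ⊕ Fin (D - (j + 1) * l)
  have : Nonempty A := ⟨Sum.inl (0, 0)⟩
  have cA : Fintype.card A = D := by
    simp only [A, Fintype.card_sum, Fintype.card_prod, Fintype.card_fin]
    omega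
  let δ : (Fin (j + 1) → E) → A → F := fun μ => Sum.elim (fun x => b.repr (μ x.1) x.2) 0
  let L : A → ((Fin (j + 1) → E) × (Fin (m - (j + 1) * l) → F)) →ₗ[F] E :=
    Sum.elim (fun x => b x.2 • (LinearMap.proj x.1 ∘ₗ LinearMap.fst F _ _)) 0
  have hL : ∀ μ w, ∑ x, δ μ x • L x w = ∑ i, μ i * w.1 i := by
    intro μ w
    rw [Fintype.sum_sum_type, Fintype.sum_prod_type]
    simp only [δ, L, Sum.elim_inl, Sum.elim_inr, Pi.zero_apply, zero_smul, sum_const_zero,
      add_zero, LinearMap.smul_apply, LinearMap.comp_apply, LinearMap.fst_apply,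
      LinearMap.proj_apply, smul_eq_mul]
    refine sum_congr rfl fun i _ => ?_
    conv_rhs => rw [← b.sum_repr (μ i), sum_mul]
    exact sum_congr rfl fun c _ => (smul_mul_assoc _ _ _).symm
  have fW' : finrank F ((Fin (j + 1) → E) × (Fin (m - (j + 1) * l) → F))
      = finrank F (Fin m → F) := by
    rw [finrank_prod, Module.finrank_pi_fintype]
    simp only [hfr, sum_const, card_univ, Fintype.card_fin, smul_eq_mul,
      finrank_fintype_fun_eq_card]
    omega
  have fW : finrank F (((Fin (j + 1) → E) × (Fin (m - (j + 1) * l) → F)) × E)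
      = finrank F (Fin (m + l) → F) := by
    rw [finrank_prod, fW', hfr]
    simp
  have fP : ∀ (B : Type) [Fintype B], finrank F (B → Fin y → F) = Fintype.card B * y := by
    intro B _
    rw [Module.finrank_pi_fintype]
    simp
  have fU : finrank F ((Fin y → F) × (A → Fin y → F)) = (D + 1) * y := by
    rw [finrank_prod, fP, cA]
    simp
    ring
  have k1 : Cov F (j + 1) (Fin D → Fin y → F) (Fin m → F) N :=
    Cov.left (by rw [fP]; simp) h1
  have key := step2 (Y := Fin y → F) (Φ := Φ) δ L ι σ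
    (fun S hS => (hA S hS).imp (fun ⟨μ, h⟩ => ⟨μ, fun w hw => by rw [hL, h w hw]⟩) id)
    (Cov.right fW'.le (Cov.left (by rw [fP, fP, cA]; simp) k1))
    (Cov.right fW'.le (Cov.left (by rw [fU, fP]; simp) (drop hjD k1))) (by
      intro d hd
      obtain ⟨a, a', c1, c2, c3⟩ := h3 d hd
      refine ⟨a, a', Cov.right fW'.le (Cov.left ?_ c1), Cov.right fW.le (Cov.left ?_ c2), c3⟩
      · simp only [finrank_fintype_fun_eq_card, Fintype.card_fin]
        exact Nat.le_mul_of_pos_left _ (by omega)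
      · rw [fP]
        simp only [finrank_fintype_fun_eq_card, Fintype.card_fin]
        exact Nat.mul_le_mul_right _ hjD)
  refine Cov.mono (Cov.left (by rw [fU]; simp) (Cov.right fW.ge key)) (le_of_eq ?_)
  simp only [cA, Fintype.card_fun, Fintype.card_prod, Fintype.card_fin, hE]
  push_cast
  ring

omit [Fintype F] in
lemma K_zero (k m : ℕ) : K F 0 k m 1 := by
  refine ⟨{0}, by simp, fun P hP φ => ⟨0, mem_singleton_self _, fun p hp => ?_⟩⟩
  have h : P = ⊥ := Submodule.finrank_eq_zero.mp (by omega)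
  rw [h, Submodule.mem_bot] at hp
  rw [hp, map_zero, map_zero]

/-- the bound for all ranks up to `r` and all large target dimensions. -/
def G (F : Type) [Field F] [Fintype F] (r k m0 : ℕ) (ρ : ℝ) : Prop :=
  ∀ j, j ≤ r → ∀ m, m0 ≤ m → K F j k m (ρ * ((Fintype.card F : ℝ) ^ m) ^ j)

lemma G_step {r l y y' m0 : ℕ} {ρ η : ℝ} (hl : 1 ≤ l) (hm : r * l ≤ m0) (h1 : 1 ≤ ρ) (h2 : ρ ≤ 2)
    (hη : 2 * r * (r * l + 1 : ℝ) + 4 * r * ((r * l : ℕ) * Fintype.card F : ℝ) ^ r
      ≤ η * (Fintype.card F : ℝ) ^ l)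
    (hy : r * l * y' ≤ (r * l + 1) * y) (h : G F r (r * l * y) m0 ρ) :
    G F r (r * l * y') (m0 + l) (ρ + η) := by
  intro j hj m hm'
  have hq : (1 : ℝ) ≤ Fintype.card F := by exact_mod_cast Fintype.card_pos
  have hz : (1 : ℝ) ≤ (Fintype.card F : ℝ) ^ l := one_le_pow₀ hq
  have hη0 : 0 ≤ η := by
    by_contra hc
    have : η * (Fintype.card F : ℝ) ^ l < 0 := mul_neg_of_neg_of_pos (not_le.mp hc) (by linarith)
    have h5 : (0 : ℝ) ≤ 2 * r * (r * l + 1 : ℝ) +
      4 * r * ((r * l : ℕ) * Fintype.card F : ℝ) ^ r := by positivity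
    linarith
  rcases j with _ | j
  · exact Cov.mono (K_zero _ _) (by rw [pow_zero]; linarith)
  obtain ⟨m, rfl⟩ : ∃ m', m = m' + l := ⟨m - l, by omega⟩
  have hm2 : m0 ≤ m := by omega
  have key := K_step (F := F) (j := j) (D := r * l) (y := y) (m := m)
    (Φ := 4 * ((Fintype.card F : ℝ) ^ m) ^ (j + 1) * ((Fintype.card F : ℝ) ^ l) ^ j) hl
    (Nat.mul_le_mul_right _ hj) (hm.trans hm2) (h _ hj m hm2) (by
      intro d hd
      refine ⟨_, _, h _ (by omega) m hm2, h _ (by omega) (m + l) (by omega), ?_⟩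
      obtain ⟨e, rfl⟩ : ∃ e, j = d + e := ⟨j - d, by omega⟩
      rw [show d + e + 1 - (d + 1) = e by omega, pow_add (Fintype.card F : ℝ) m l]
      generalize (Fintype.card F : ℝ) ^ l = z at *
      have hx : (0 : ℝ) ≤ (Fintype.card F : ℝ) ^ m := by positivity
      generalize (Fintype.card F : ℝ) ^ m = x at *
      have h6 : z ^ e ≤ z ^ (d + e) := pow_le_pow_right₀ hz (by omega)
      have h7 : ρ * ρ ≤ 4 := by nlinarith
      calc ρ * x ^ (d + 1) * (ρ * (x * z) ^ e) = ρ * ρ * x ^ (d + e + 1) * z ^ e := by ring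
        _ ≤ 4 * x ^ (d + e + 1) * z ^ (d + e) := by gcongr)
  refine Cov.mono (Cov.left (by simpa using hy) key) ?_
  have hDq : (1 : ℝ) ≤ ((r * l : ℕ) * Fintype.card F : ℝ) := by
    have : 1 ≤ r * l := Nat.mul_pos (by omega) hl
    exact one_le_mul_of_one_le_of_one_le (by exact_mod_cast this) hq
  have h8 : ((r * l : ℕ) * Fintype.card F : ℝ) ^ (j + 1) ≤
      ((r * l : ℕ) * Fintype.card F : ℝ) ^ r := pow_le_pow_right₀ hDq hj
  have h9 : (j + 1 : ℝ) ≤ r := by exact_mod_cast hj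
  rw [pow_add (Fintype.card F : ℝ) m l]
  have hx : (0 : ℝ) ≤ (Fintype.card F : ℝ) ^ m := by positivity
  have hB : (0 : ℝ) ≤ ((r * l : ℕ) * Fintype.card F : ℝ) ^ (j + 1) := by positivity
  generalize ((r * l : ℕ) * Fintype.card F : ℝ) ^ (j + 1) = B at *
  generalize ((r * l : ℕ) * Fintype.card F : ℝ) ^ r = B' at *
  generalize (Fintype.card F : ℝ) ^ l = z at *
  generalize (Fintype.card F : ℝ) ^ m = x at *
  push_cast
  have hw : 0 ≤ x ^ (j + 1) * z ^ j := by positivity
  have e1 : (j + 1 : ℝ) * (r * l + 1) * ρ ≤ r * (r * l + 1) * 2 := by gcongr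
  have e2 : B * (j + 1 : ℝ) ≤ B' * r := by gcongr; linarith
  have e3 : (j + 1 : ℝ) * (r * l + 1) * ρ + 4 * (B * (j + 1)) ≤ η * z := by linarith
  have e4 := mul_le_mul_of_nonneg_right e3 hw
  calc _ = ρ * (x * z) ^ (j + 1) +
        ((j + 1 : ℝ) * (r * l + 1) * ρ + 4 * (B * (j + 1))) * (x ^ (j + 1) * z ^ j) := by ring
    _ ≤ ρ * (x * z) ^ (j + 1) + η * z * (x ^ (j + 1) * z ^ j) := by linarith
    _ = _ := by ring

lemma G_iter {r l : ℕ} {η : ℝ} (hr : 1 ≤ r) (hl : 1 ≤ l) (hη0 : 0 ≤ η)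
    (hη : 2 * r * (r * l + 1 : ℝ) + 4 * r * ((r * l : ℕ) * Fintype.card F : ℝ) ^ r
      ≤ η * (Fintype.card F : ℝ) ^ l) (s : ℕ) : (s * (r * l) : ℕ) * η ≤ 1 →
    G F r (r * l * (2 ^ s * (r * l))) (r * l * (r * l) + s * (r * l) * l)
      (1 + (s * (r * l) : ℕ) * η) := by
  have hD : 1 ≤ r * l := Nat.mul_pos hr hl
  have hD2 : r * l ≤ r * l * (r * l) := Nat.le_mul_of_pos_right _ hD
  have inner : ∀ g u : ℕ, G F r (r * l * (u * (r * l))) (r * l * (r * l) + g * l) (1 + g * η) →
      ∀ i : ℕ, (g + i : ℕ) * η ≤ 1 → G F r (r * l * (u * (r * l + i)))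
        (r * l * (r * l) + (g + i) * l) (1 + (g + i : ℕ) * η) := by
    intro g u h i
    induction i with
    | zero => exact fun _ => h
    | succ i ih =>
      intro h1
      have h2 : ((g + i : ℕ) : ℝ) * η ≤ 1 := by
        refine le_trans ?_ h1
        gcongr
        omega
      have h3 : (0 : ℝ) ≤ (g + i : ℕ) * η := by positivity
      have := G_step (y' := u * (r * l + (i + 1))) hl (by omega) (by linarith) (by linarith) hη
        (by nlinarith [Nat.zero_le (u * i)]) (ih h2)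
      have e1 : r * l * (r * l) + (g + i) * l + l = r * l * (r * l) + (g + (i + 1)) * l := by ring
      have e2 : 1 + ((g + i : ℕ) : ℝ) * η + η = 1 + (g + (i + 1) : ℕ) * η := by
        push_cast
        ring
      rwa [e1, e2] at this
  induction s with
  | zero =>
    intro _ j _ m hm
    have := K_gab (F := F) (j := j) (k := r * l * (2 ^ 0 * (r * l))) (m := m) (by omega)
      (by simpa using hm)
    simpa using this
  | succ s ih =>
    intro h1
    have e0 : (s + 1) * (r * l) = s * (r * l) + r * l := by ring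
    have h2 : ((s * (r * l) : ℕ) : ℝ) * η ≤ 1 := by
      refine le_trans ?_ h1
      gcongr
      omega
    have := inner _ _ (ih h2) (r * l) (by rwa [← e0])
    have e1 : 2 ^ s * (r * l + r * l) = 2 ^ (s + 1) * (r * l) := by ring
    rwa [e1, ← e0] at this

end Pool.Agent.SH17
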