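import Pool.Agent.Lib.CT17.Core

namespace Pool.Agent.SH17

open Module Finset Pool.Agent.CT17

variable {F : Type} [Field F] {U W W' : Type} [AddCommGroup U] [Module F U]
  [AddCommGroup W] [Module F W] [AddCommGroup W'] [Module F W']

lemma sub_retr [Module.Finite F W] [Module.Finite F W'] (S : Submodule F W)
    (h : finrank F S ≤ finrank F W') :
    ∃ (ι : W' →ₗ[F] W) (σ : W →ₗ[F] W'), ∀ w ∈ S, ι (σ w) = w := by
  obtain ⟨τ, σ', hσ⟩ := exists_retr h
  obtain ⟨σ, h2⟩ := LinearMap.exists_extend τ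
  refine ⟨S.subtype ∘ₗ σ', σ, fun w hw => ?_⟩
  have h3 : σ w = τ ⟨w, hw⟩ := LinearMap.congr_fun h2 ⟨w, hw⟩
  rw [h3, LinearMap.comp_apply, hσ]
  rfl

/-- a subspace of dimension at most `j + 1` lies in a graph over `E` or in one of few subspaces. -/
lemma labels (E Z : Type) [Field E] [Algebra F E] [Module.Finite F E] [AddCommGroup Z]
    [Module F Z] [Module.Finite F Z] (j : ℕ) :
    ∃ (ι : Fin (j + 1) × (Fin j → E) →
        ((Fin (j + 1) → E) × Z) →ₗ[F] (((Fin (j + 1) → E) × Z) × E))
      (σ : Fin (j + 1) × (Fin j → E) →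
        (((Fin (j + 1) → E) × Z) × E) →ₗ[F] ((Fin (j + 1) → E) × Z)),
      ∀ S : Submodule F (((Fin (j + 1) → E) × Z) × E), finrank F S ≤ j + 1 →
        (∃ μ : Fin (j + 1) → E, ∀ w ∈ S, w.2 = ∑ i, μ i * w.1.1 i) ∨
          ∃ h, ∀ w ∈ S, ι h (σ h w) = w := by
  classical
  let g : Fin (j + 1) × (Fin j → E) → ((Fin (j + 1) → E) →ₗ[E] E) := fun h =>
    LinearMap.proj h.1 - ∑ i, h.2 i • LinearMap.proj (h.1.succAbove i)
  let f : Fin (j + 1) × (Fin j → E) → ((((Fin (j + 1) → E) × Z) × E) →ₗ[F] E) := fun h =>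
    (g h).restrictScalars F ∘ₗ LinearMap.fst F _ _ ∘ₗ LinearMap.fst F _ _
  have hf : ∀ h w, f h w = w.1.1 h.1 - ∑ i, h.2 i * w.1.1 (h.1.succAbove i) := by
    intro h w
    simp only [f, g, LinearMap.comp_apply, LinearMap.fst_apply, LinearMap.restrictScalars_apply,
      LinearMap.sub_apply, LinearMap.sum_apply, LinearMap.smul_apply, LinearMap.proj_apply,
      smul_eq_mul]
  have hk : ∀ h, finrank F (LinearMap.ker (f h)) ≤ finrank F ((Fin (j + 1) → E) × Z) := by
    intro h
    have h1 : LinearMap.range (f h) = ⊤ := by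
      refine LinearMap.range_eq_top.mpr fun e => ⟨((Pi.single h.1 e, 0), 0), ?_⟩
      rw [hf]
      simp [Fin.succAbove_ne]
    have h2 := LinearMap.finrank_range_add_finrank_ker (f h)
    rw [h1, finrank_top, finrank_prod] at h2
    omega
  choose ι σ hι using fun h => sub_retr _ (hk h)
  refine ⟨ι, σ, fun S hS => ?_⟩
  let b := Module.finBasis F S
  let T : Submodule E ((Fin (j + 1) → E) × E) :=
    Submodule.span E (Set.range fun i => ((b i).1.1.1, (b i).1.2))
  have hT : T < ⊤ := by
    refine lt_top_iff_ne_top.mpr fun h => ?_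
    have h1 : finrank E T ≤ Fintype.card (Fin (finrank F S)) := finrank_range_le_card _
    rw [h] at h1
    simp at h1
    omega
  obtain ⟨u, hu0, hu⟩ := Submodule.exists_le_ker_of_lt_top T hT
  let π : (((Fin (j + 1) → E) × Z) × E) →ₗ[F] ((Fin (j + 1) → E) × E) :=
    (LinearMap.fst F _ _).prodMap LinearMap.id
  have hmem : ∀ w ∈ S, u (w.1.1, w.2) = 0 := by
    intro w hw
    apply hu
    have h1 : w = ∑ i, b.repr ⟨w, hw⟩ i • (b i).1 := by
      have := congrArg Subtype.val (b.sum_repr ⟨w, hw⟩)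
      rw [Submodule.coe_sum] at this
      exact this.symm
    change π w ∈ T
    rw [h1, map_sum]
    refine T.sum_mem fun i _ => ?_
    rw [map_smul]
    exact T.smul_of_tower_mem _ (Submodule.subset_span ⟨i, rfl⟩)
  let ν : Fin (j + 1) → E := fun k => u (fun i => if k = i then 1 else 0, 0)
  have hν : ∀ (x : Fin (j + 1) → E) (e : E), u (x, e) = ∑ i, x i * ν i + e * u (0, 1) := by
    intro x e
    have h1 : u (x, e) = (u ∘ₗ LinearMap.inl E _ _) x + e • u (0, 1) := by
      rw [← map_smul, LinearMap.comp_apply, ← map_add]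
      simp
    rw [h1, LinearMap.pi_apply_eq_sum_univ]
    rfl
  by_cases h0 : u (0, 1) = 0
  · right
    obtain ⟨a, ha⟩ : ∃ a, ν a ≠ 0 := by
      by_contra hc
      push Not at hc
      apply hu0
      refine LinearMap.ext fun v => ?_
      have := hν v.1 v.2
      simpa [hc, h0] using this
    refine ⟨(a, fun i => -ν (a.succAbove i) / ν a), fun w hw => hι _ w ?_⟩
    have h2 := hmem w hw
    rw [hν, h0, mul_zero, add_zero, Fin.sum_univ_succAbove _ a] at h2
    rw [LinearMap.mem_ker, hf, sub_eq_zero]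
    apply mul_right_cancel₀ ha
    rw [sum_mul, eq_neg_of_add_eq_zero_left h2, ← sum_neg_distrib]
    refine sum_congr rfl fun i _ => ?_
    field_simp
  · left
    refine ⟨fun i => -ν i / u (0, 1), fun w hw => ?_⟩
    have h2 := hmem w hw
    rw [hν] at h2
    apply mul_right_cancel₀ h0
    rw [sum_mul, eq_neg_of_add_eq_zero_right h2, ← sum_neg_distrib]
    refine sum_congr rfl fun i _ => ?_
    field_simp

lemma pick [Module.Finite F U] {A : Type} [Nonempty A] (S : A → Submodule F U) (j : ℕ) :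
    ∀ P : Submodule F U, finrank F P ≤ j →
      ∃ a : Fin j → A, ∀ p ∈ P, (∀ i, p ∈ S (a i)) → ∀ x, p ∈ S x := by
  induction j with
  | zero =>
    intro P hP
    have h : P = ⊥ := Submodule.finrank_eq_zero.mp (by omega)
    refine ⟨Fin.elim0, fun p hp _ x => ?_⟩
    rw [h, Submodule.mem_bot] at hp
    rw [hp]
    exact zero_mem _
  | succ j ih =>
    intro P hP
    by_cases h : ∀ x, P ≤ S x
    · exact ⟨fun _ => Classical.arbitrary A, fun p hp _ x => h x hp⟩
    · push Not at h
      obtain ⟨x0, hx⟩ := h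
      have h1 : P ⊓ S x0 < P := lt_of_le_of_ne inf_le_left fun e => hx (e ▸ inf_le_right)
      have h2 := Submodule.finrank_lt_finrank_of_lt h1
      obtain ⟨a, ha⟩ := ih (P ⊓ S x0) (by omega)
      refine ⟨Fin.cons x0 a, fun p hp h3 => ha p ⟨hp, h3 0⟩ fun i => h3 i.succ⟩

lemma drop [Module.Finite F U] {j D : ℕ} {N : ℝ} (hj : j ≤ D) (h : Cov F j (Fin D → U) W N) :
    Cov F j (Fin (D + 1) → U) W ((D + 1 : ℕ) * N) := by
  classical
  have := Cov.outer (J := Fin (D + 1)) (fun b => LinearMap.funLeft F U b.succAbove)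
    (fun P hP => ?_) h
  · rwa [Fintype.card_fin] at this
  by_contra hc
  push Not at hc
  choose p hp h0 hne using hc
  have hz : ∀ b c, c ≠ b → p b c = 0 := by
    intro b c hcb
    obtain ⟨i, rfl⟩ := Fin.exists_succAbove_eq hcb
    exact congrFun (h0 b) i
  have hb : ∀ b, p b b ≠ 0 := by
    intro b e
    apply hne b
    funext c
    by_cases hcb : c = b
    · rw [hcb, e]
      rfl
    · exact hz b c hcb
  have hli : LinearIndependent F fun b => (⟨p b, hp b⟩ : P) := by
    refine LinearIndependent.of_comp P.subtype (Fintype.linearIndependent_iff.mpr fun g hg c => ?_)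
    have h1 := congrFun hg c
    rw [Finset.sum_apply, sum_eq_single c] at h1
    · exact (smul_eq_zero.mp h1).resolve_right (hb c)
    · intro b _ hbc
      change g b • p b c = 0
      rw [hz b c hbc.symm, smul_zero]
    · intro hn
      exact absurd (mem_univ _) hn
  have h2 := hli.fintype_card_le_finrank
  rw [Fintype.card_fin] at h2
  omega

end Pool.Agent.SH17
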