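import Pool.Agent.Lib.SH17.Lab

namespace Pool.Agent.SH17

open Module Finset Pool.Agent.CT17

variable {F : Type} [Field F] {U V W W' : Type} [AddCommGroup U] [Module F U]
  [AddCommGroup V] [Module F V] [AddCommGroup W] [Module F W] [AddCommGroup W'] [Module F W']

/-- at most `N` maps that interpolate all pairs satisfying `Q`. -/
def Fam (N : ℝ) (Q : Submodule F U → (U →ₗ[F] W) → Prop) : Prop :=
  ∃ M : Finset (U →ₗ[F] W), (M.card : ℝ) ≤ N ∧ ∀ P φ, Q P φ → ∃ A ∈ M, ∀ p ∈ P, A p = φ p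

lemma Fam.or {N N' : ℝ} {Q Q' : Submodule F U → (U →ₗ[F] W) → Prop} (h : Fam N Q)
    (h' : Fam N' Q') : Fam (N + N') fun P φ => Q P φ ∨ Q' P φ := by
  classical
  obtain ⟨M, a1, a2⟩ := h
  obtain ⟨M', b1, b2⟩ := h'
  refine ⟨M ∪ M', le_trans (Nat.cast_le.mpr (card_union_le _ _)) ?_, fun P φ h => ?_⟩
  · push_cast
    exact add_le_add a1 b1
  · rcases h with h | h
    · obtain ⟨A, c1, c2⟩ := a2 P φ h
      exact ⟨A, mem_union_left _ c1, c2⟩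
    · obtain ⟨A, c1, c2⟩ := b2 P φ h
      exact ⟨A, mem_union_right _ c1, c2⟩

lemma Fam.ex {I : Type} [Fintype I] {N : ℝ} {Q : I → Submodule F U → (U →ₗ[F] W) → Prop}
    (h : ∀ i, Fam N (Q i)) : Fam (Fintype.card I * N) fun P φ => ∃ i, Q i P φ := by
  classical
  choose M a1 a2 using h
  refine ⟨univ.biUnion M, le_trans (Nat.cast_le.mpr card_biUnion_le) ?_, fun P φ h => ?_⟩
  · push_cast
    refine le_trans (sum_le_card_nsmul _ _ N fun i _ => a1 i) ?_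
    rw [card_univ, nsmul_eq_mul]
  · obtain ⟨i, h⟩ := h
    obtain ⟨A, c1, c2⟩ := a2 i P φ h
    exact ⟨A, mem_biUnion.mpr ⟨i, mem_univ _, c1⟩, c2⟩

lemma fam_solo [Module.Finite F U] {j : ℕ} {N : ℝ} (h : Cov F j V W' N) (π : U →ₗ[F] V)
    (ι : W' →ₗ[F] W) (σ : W →ₗ[F] W') : Fam N fun (P : Submodule F U) (φ : U →ₗ[F] W) =>
      finrank F P ≤ j ∧ (∀ p ∈ P, π p = 0 → p = 0) ∧ ∀ p ∈ P, ι (σ (φ p)) = φ p := by
  classical
  obtain ⟨M, h1, h2⟩ := h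
  refine ⟨M.image fun A => ι ∘ₗ A ∘ₗ π, le_trans (Nat.cast_le.mpr card_image_le) h1, ?_⟩
  rintro P φ ⟨a1, a2, a3⟩
  obtain ⟨ψ, hψ⟩ := factor π (σ ∘ₗ φ) P fun u hu h0 => by rw [a2 u hu h0, map_zero]
  obtain ⟨A, hA1, hA2⟩ := h2 (P.map π) ((Submodule.finrank_map_le _ _).trans a1) ψ
  refine ⟨_, mem_image.mpr ⟨A, hA1, rfl⟩, fun u hu => ?_⟩
  change ι (A (π u)) = φ u
  rw [hA2 _ (Submodule.mem_map_of_mem hu), hψ u hu, LinearMap.comp_apply]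
  exact a3 u hu

variable {Y E : Type} [AddCommGroup Y] [Module F Y] [AddCommGroup E] [Module F E]

lemma fam_rep [Module.Finite F Y] {A : Type} [Fintype A] {j d : ℕ} {a a' : ℝ}
    (L : A → W' →ₗ[F] E) (h1 : Cov F d Y W' a) (h2 : Cov F (j - d) V (W' × E) a')
    (Ψ : (Y × (A → Y)) →ₗ[F] V) :
    Fam (a * a') fun (P : Submodule F (Y × (A → Y))) (φ : (Y × (A → Y)) →ₗ[F] W' × E) =>
      finrank F P ≤ j ∧ finrank F ↥(P ⊓ LinearMap.ker Ψ) = d ∧ ∃ c : A → F, ∀ p ∈ P, Ψ p = 0 →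
        (∀ x, p.2 x = c x • p.1) ∧ (φ p).2 = ∑ x, c x • L x (φ p).1 := by
  classical
  obtain ⟨M, a1, a2⟩ := h1
  obtain ⟨M', b1, b2⟩ := h2
  let ov : (Y →ₗ[F] W') → ((Y × (A → Y)) →ₗ[F] W' × E) := fun τ =>
    (τ ∘ₗ LinearMap.fst F _ _).prod (∑ x, L x ∘ₗ τ ∘ₗ LinearMap.proj x ∘ₗ LinearMap.snd F _ _)
  refine ⟨(M ×ˢ M').image fun z => ov z.1 + z.2 ∘ₗ Ψ,
    le_trans (Nat.cast_le.mpr card_image_le) ?_, ?_⟩
  · rw [card_product]
    push_cast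
    exact mul_le_mul a1 b1 (Nat.cast_nonneg _) ((Nat.cast_nonneg _).trans a1)
  rintro P φ ⟨c1, c2, c, c3⟩
  have hs := rank_split Ψ P
  obtain ⟨ψ, hψ⟩ := factor (LinearMap.fst F Y (A → Y)) (LinearMap.fst F W' E ∘ₗ φ)
    (P ⊓ LinearMap.ker Ψ) fun u hu h0 => by
      have h3 : u = 0 := by
        refine Prod.ext h0 (funext fun x => ?_)
        have h4 : u.1 = 0 := h0
        rw [(c3 u hu.1 hu.2).1 x, h4, smul_zero]
        rfl
      rw [h3, map_zero]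
  obtain ⟨τ, hτ1, hτ2⟩ := a2 ((P ⊓ LinearMap.ker Ψ).map (LinearMap.fst F Y (A → Y)))
    ((Submodule.finrank_map_le _ _).trans c2.le) ψ
  have key : ∀ u ∈ P, Ψ u = 0 → ov τ u = φ u := by
    intro u hu h0
    have hu' : u ∈ P ⊓ LinearMap.ker Ψ := ⟨hu, h0⟩
    have h3 : τ u.1 = (φ u).1 := (hτ2 _ (Submodule.mem_map_of_mem hu')).trans (hψ u hu')
    refine Prod.ext h3 ?_
    rw [(c3 u hu h0).2]
    change (∑ x, L x ∘ₗ τ ∘ₗ LinearMap.proj x ∘ₗ LinearMap.snd F _ _) u = _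
    rw [LinearMap.sum_apply]
    refine sum_congr rfl fun x _ => ?_
    change L x (τ (u.2 x)) = _
    rw [(c3 u hu h0).1 x, map_smul, map_smul, h3]
  obtain ⟨χ, hχ⟩ := factor Ψ (φ - ov τ) P fun u hu h0 => by
    rw [LinearMap.sub_apply, key u hu h0, sub_self]
  obtain ⟨B, hB1, hB2⟩ := b2 (P.map Ψ) (by omega) χ
  refine ⟨_, mem_image.mpr ⟨(τ, B), mem_product.mpr ⟨hτ1, hB1⟩, rfl⟩, fun u hu => ?_⟩
  change ov τ u + B (Ψ u) = φ u
  rw [hB2 _ (Submodule.mem_map_of_mem hu), hχ u hu, LinearMap.sub_apply]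
  abel

/-- the recursion step. -/
lemma step2 [Fintype F] [Module.Finite F Y] [Module.Finite F W'] [Module.Finite F E]
    {A Λ H : Type} [Fintype A] [Fintype Λ] [Fintype H] [Nonempty A] {j : ℕ} {N N2 Φ : ℝ}
    (δ : Λ → A → F) (L : A → W' →ₗ[F] E) (ι : H → W' →ₗ[F] W' × E) (σ : H → W' × E →ₗ[F] W')
    (hA : ∀ S : Submodule F (W' × E), finrank F S ≤ j →
      (∃ μ, ∀ w ∈ S, w.2 = ∑ x, δ μ x • L x w.1) ∨ ∃ h, ∀ w ∈ S, ι h (σ h w) = w)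
    (h1 : Cov F j (A → Y) W' N) (h2 : Cov F j (Y × (A → Y)) W' N2)
    (h3 : ∀ d, d < j → ∃ a a', Cov F (d + 1) Y W' a ∧
      Cov F (j - (d + 1)) (Fin j → Y) (W' × E) a' ∧ a * a' ≤ Φ) :
    Cov F j (Y × (A → Y)) (W' × E) (Fintype.card Λ * N + Fintype.card H * N2 +
      (Fintype.card A * Fintype.card F) ^ j * (j * Φ)) := by
  classical
  let t : A → F → ((Y × (A → Y)) →ₗ[F] Y) := fun x β =>
    LinearMap.proj x ∘ₗ LinearMap.snd F _ _ - β • LinearMap.fst F _ _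
  have ht : ∀ x β u, t x β u = 0 ↔ u.2 x = β • u.1 := fun x β u => sub_eq_zero
  let Ψ : (Fin j → A × F) → ((Y × (A → Y)) →ₗ[F] (Fin j → Y)) := fun s =>
    LinearMap.pi fun i => t (s i).1 (s i).2
  have f1 := Fam.ex fun μ : Λ => fam_solo h1 (LinearMap.pi fun x => t x (δ μ x))
    (LinearMap.id.prod (∑ x, δ μ x • L x)) (LinearMap.fst F W' E)
  have f2 := Fam.ex fun h : H => fam_solo h2 LinearMap.id (ι h) (σ h)
  have f3 := Fam.ex fun s : Fin j → A × F => Fam.ex fun d : Fin j =>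
    show Fam Φ fun (P : Submodule F (Y × (A → Y))) (φ : (Y × (A → Y)) →ₗ[F] W' × E) =>
      finrank F P ≤ j ∧ finrank F ↥(P ⊓ LinearMap.ker (Ψ s)) = d + 1 ∧ ∃ c : A → F, ∀ p ∈ P,
        Ψ s p = 0 → (∀ x, p.2 x = c x • p.1) ∧ (φ p).2 = ∑ x, c x • L x (φ p).1 from by
      obtain ⟨a, a', k1, k2, k3⟩ := h3 d d.2
      obtain ⟨M, m1, m2⟩ := fam_rep L k1 k2 (Ψ s)
      exact ⟨M, m1.trans k3, m2⟩
  obtain ⟨M, m1, m2⟩ := (f1.or f2).or f3
  refine ⟨M, m1.trans (le_of_eq ?_), fun P hP φ => m2 P φ ?_⟩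
  · simp
  rcases hA (P.map φ) ((Submodule.finrank_map_le _ _).trans hP) with ⟨μ, hμ⟩ | ⟨h, hh⟩
  · by_cases hc : ∀ p ∈ P, (LinearMap.pi fun x => t x (δ μ x)) p = 0 → p = 0
    · refine Or.inl (Or.inl ⟨μ, hP, hc, fun p hp => Prod.ext rfl ?_⟩)
      rw [hμ _ (Submodule.mem_map_of_mem hp)]
      change (∑ x, δ μ x • L x) (φ p).1 = _
      rw [LinearMap.sum_apply]
      rfl
    · push Not at hc
      obtain ⟨u, hu, h0, hu0⟩ := hc
      obtain ⟨a, ha⟩ := pick (fun x => LinearMap.ker (t x (δ μ x))) j P hP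
      let s : Fin j → A × F := fun i => (a i, δ μ (a i))
      have e1 : finrank F ↥(P ⊓ LinearMap.ker (Ψ s)) ≠ 0 := by
        intro e
        have h5 : u ∈ P ⊓ LinearMap.ker (Ψ s) := ⟨hu, funext fun i => congrFun h0 (a i)⟩
        rw [Submodule.finrank_eq_zero.mp e] at h5
        exact hu0 h5
      have e2 := rank_split (Ψ s) P
      refine Or.inr ⟨s, ⟨finrank F ↥(P ⊓ LinearMap.ker (Ψ s)) - 1, by omega⟩, hP, ?_, δ μ,
        fun p hp h6 => ⟨fun x => ?_, hμ _ (Submodule.mem_map_of_mem hp)⟩⟩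
      · change _ = finrank F ↥(P ⊓ LinearMap.ker (Ψ s)) - 1 + 1
        omega
      · exact (ht _ _ _).mp (ha p hp (fun i => congrFun h6 i) x)
  · exact Or.inl (Or.inr ⟨h, hP, fun p _ h0 => h0, fun p hp =>
      hh _ (Submodule.mem_map_of_mem hp)⟩)

end Pool.Agent.SH17
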